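import Pool.Agent.P.MP_64e39e_gt.Main

/-!
A fan with at most four orbits has exactly three: the top, the endpoints, and the other points.
-/

namespace Pool.Agent.P.MP_64e39e_gt
open Set Metric Topology Filter

section
variable {X : Type} [MetricSpace X] [CompactSpace X] [Fan X]

lemma isMax_of_end {x : X} (hx : x ≠ ⊥) (h : ∀ γ : unitInterval → X, Continuous γ →
    Function.Injective γ → ∀ s, γ s = x → s = 0 ∨ s = 1) : IsMax x := by
  by_contra hm
  obtain ⟨v, hv⟩ := not_isMax_iff.mp hm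
  obtain ⟨γ, h1, h2, h3, h4, h5⟩ := exists_arc' (ne_bot_of_gt hv)
  obtain ⟨s, hs⟩ : x ∈ range γ := h4 ▸ hv.le
  rcases h γ h1 (fun s s' e => le_antisymm ((h5 _ _).mp e.le) ((h5 _ _).mp e.ge)) s hs with
    rfl | rfl
  · exact hx (hs.symm.trans h2)
  · exact hv.ne (hs.symm.trans h3)

omit [CompactSpace X] [Fan X] in
lemma seg_subset_image {γ : unitInterval → X} (h1 : Continuous γ) {s s' : unitInterval}
    (h : s ≤ s') : seg (γ s) (γ s') ⊆ γ '' Icc s s' :=
  seg_subset (isClosed_Icc.isCompact.image h1).isClosed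
    (isPreconnected_Icc.image _ h1.continuousOn) ⟨s, ⟨le_rfl, h⟩, rfl⟩ ⟨s', ⟨h, le_rfl⟩, rfl⟩

lemma end_of_isMax {x : X} (hx : x ≠ ⊥) (hm : IsMax x) (γ : unitInterval → X)
    (h1 : Continuous γ) (h2 : Function.Injective γ) (s : unitInterval) (hs : γ s = x) :
    s = 0 ∨ s = 1 := by
  by_contra hcon
  obtain ⟨n0, n1⟩ := not_or.mp hcon
  subst hs
  have hU : γ ⁻¹' {⊥}ᶜ ∈ 𝓝 s := (isOpen_compl_singleton.preimage h1).mem_nhds hx
  obtain ⟨l, u, ⟨l1, u1⟩, hsub⟩ := (mem_nhds_iff_exists_Ioo_subset'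
    ⟨0, unitInterval.pos_iff_ne_zero.mpr n0⟩ ⟨1, unitInterval.lt_one_iff_ne_one.mpr n1⟩).mp hU
  obtain ⟨p, p1, p2⟩ := exists_between l1
  obtain ⟨q, q1, q2⟩ := exists_between u1
  have sp := seg_subset_image h1 p2.le
  have sq := seg_subset_image h1 q1.le
  rw [seg_comm] at sq
  have hp : γ p ≤ γ s := by
    by_contra h
    obtain ⟨r, hr, e⟩ := sp (bot_mem_seg h fun h' => h (hm h'))
    exact hsub ⟨p1.trans_le hr.1, hr.2.trans_lt u1⟩ e
  have hq : γ q ≤ γ s := by
    by_contra h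
    obtain ⟨r, hr, e⟩ := sq (bot_mem_seg h fun h' => h (hm h'))
    exact hsub ⟨l1.trans_le hr.1, hr.2.trans_lt q2⟩ e
  rcases total_below hp hq with h | h
  · obtain ⟨r, hr, e⟩ := sp ((Icc_eq_seg hp).subset ⟨h, hq⟩)
    exact q1.not_ge (h2 e ▸ hr.2)
  · obtain ⟨r, hr, e⟩ := sq ((Icc_eq_seg hq).subset ⟨h, hp⟩)
    exact p2.not_ge (h2 e ▸ hr.1)

theorem same_orbit (a : Fin 4 → X) (h2 : ∀ x : X, ∃ i, ∃ h : X ≃ₜ X, h (a i) = x) {x y : X}
    (hx : x ≠ ⊥) (hy : y ≠ ⊥) (hxy : IsMax x ↔ IsMax y) : y ∈ orb x := by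
  choose c hc using h2
  have key : ∀ x y, c x = c y → y ∈ orb x := fun x y h =>
    orb_trans (orb_symm (hc x)) (h ▸ hc y)
  have main : ∀ u v : X, u ≠ ⊥ → v ≠ ⊥ → ¬ IsMax u → ¬ IsMax v → v ∈ orb u := by
    intro u v u0 v0 u1 v1
    by_contra huv
    have he := isMax_en u
    have he0 : en u ≠ ⊥ := ne_bot_of_le_ne_bot u0 (le_en u)
    have n1 : ∀ x, x ≠ ⊥ → (⊥ : X) ∉ orb x := fun x hx h => orb_ne_bot hx h rfl
    have n2 : ∀ x, ¬ IsMax x → en u ∉ orb x := fun x hx h => orb_not_isMax hx h he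
    let b : Fin 4 → X := ![⊥, en u, u, v]
    have hb : ∀ i j, b j ∈ orb (b i) → i = j := by
      intro i j h
      fin_cases i <;> fin_cases j
      all_goals first
        | rfl
        | exact absurd h (n1 _ he0) | exact absurd h (n1 _ u0) | exact absurd h (n1 _ v0)
        | exact absurd (orb_symm h) (n1 _ he0) | exact absurd (orb_symm h) (n1 _ u0)
        | exact absurd (orb_symm h) (n1 _ v0)
        | exact absurd h (n2 _ u1) | exact absurd h (n2 _ v1)
        | exact absurd (orb_symm h) (n2 _ u1) | exact absurd (orb_symm h) (n2 _ v1)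
        | exact absurd h huv | exact absurd (orb_symm h) huv
    have hinj : Function.Injective fun i => c (b i) := fun i j h => hb i j (key _ _ h)
    refine no_four_orbits u0 b hb fun z => ?_
    obtain ⟨i, hi⟩ := Finite.surjective_of_injective hinj (c z)
    exact ⟨i, key _ _ hi⟩
  by_cases hm : IsMax x
  · obtain ⟨u, u1, u2⟩ := exists_between' (bot_lt_iff_ne_bot.mpr hx)
    obtain ⟨v, v1, v2⟩ := exists_between' (bot_lt_iff_ne_bot.mpr hy)
    obtain ⟨g, rfl⟩ := main u v u1.ne' v1.ne' (not_isMax_of_lt u2) (not_isMax_of_lt v2)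
    refine ⟨g, ?_⟩
    rw [← en_eq u1.ne' hm u2.le, ← map_en g u1.ne', en_eq v1.ne' (hxy.mp hm) v2.le]
  · exact main x y hx hy hm (mt hxy.mpr hm)

end

theorem three_orbits {X : Type} [MetricSpace X] [CompactSpace X] [PathConnectedSpace X]
    (hu : ∀ A B : Set X, IsClosed A → IsConnected A → IsClosed B → IsConnected B →
      IsPreconnected (A ∩ B)) (t : X)
    (huniq : ∀ p : X, (∃ γ : Fin 3 → unitInterval → X,
      (∀ i, Continuous (γ i) ∧ Function.Injective (γ i) ∧ γ i 0 = p) ∧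
      ∀ i j, i ≠ j → Set.range (γ i) ∩ Set.range (γ j) = {p}) → p = t)
    (ht' : ∃ γ : Fin 3 → unitInterval → X,
      (∀ i, Continuous (γ i) ∧ Function.Injective (γ i) ∧ γ i 0 = t) ∧
      ∀ i j, i ≠ j → Set.range (γ i) ∩ Set.range (γ j) = {t})
    (a : Fin 4 → X) (h2 : ∀ x : X, ∃ i, ∃ h : X ≃ₜ X, h (a i) = x) {x y : X} (hx : x ≠ t)
    (hy : y ≠ t)
    (hxy : (∀ γ : unitInterval → X, Continuous γ → Function.Injective γ →
        ∀ s, γ s = x → s = 0 ∨ s = 1) ↔
      ∀ γ : unitInterval → X, Continuous γ → Function.Injective γ →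
        ∀ s, γ s = y → s = 0 ∨ s = 1) : ∃ h : X ≃ₜ X, h x = y := by
  have D : Dendroid X := ⟨hu⟩
  obtain ⟨γ, hγ, hγ'⟩ := ht'
  have hfix : ∀ h : X ≃ₜ X, h t = t := by
    intro h
    refine huniq _ ⟨fun i => h ∘ γ i, fun i => ⟨h.continuous.comp (hγ i).1,
      h.injective.comp (hγ i).2.1, by simp [(hγ i).2.2]⟩, fun i j hij => ?_⟩
    rw [range_comp, range_comp, ← image_inter h.injective, hγ' i j hij, image_singleton]
  have hcomp : ∀ m y y' : X, m ≠ t → m ∈ seg t y → m ∈ seg t y' →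
      y ∈ seg t y' ∨ y' ∈ seg t y := by
    intro m y y' hm k1 k2
    by_contra hcon
    obtain ⟨n1, n2⟩ := not_or.mp hcon
    obtain ⟨q, hq, hmax⟩ := ((isClosed_seg t y).inter (isClosed_seg t y')).isCompact.exists_isMaxOn
      ⟨m, k1, k2⟩ ((continuousOn_ht (isClosed_order_seg t y)).mono inter_subset_left)
    have hqt : q ≠ t := by
      rintro rfl
      exact absurd (hmax ⟨k1, k2⟩) (not_le.mpr (ht_lt (left_mem_seg q m) hm.symm))
    have arc : ∀ z, q ≠ z → ∃ β : unitInterval → X,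
        (Continuous β ∧ Function.Injective β ∧ β 0 = q) ∧ range β = seg q z := by
      intro z hz
      obtain ⟨β, b1, b2, -, b3, b4⟩ := exists_arc hz
      refine ⟨β, ⟨b1, fun s s' e => le_antisymm ((b4 _ _).mp ?_) ((b4 _ _).mp ?_), b2⟩, b3⟩
      · rw [e]; exact right_mem_seg _ _
      · rw [e]; exact right_mem_seg _ _
    obtain ⟨β0, a0, r0⟩ := arc t hqt
    obtain ⟨β1, a1, r1⟩ := arc y (by rintro rfl; exact n1 hq.2)
    obtain ⟨β2, a2, r2⟩ := arc y' (by rintro rfl; exact n2 hq.1)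
    have i1 : ∀ z, q ∈ seg t z → seg q t ∩ seg q z = {q} := by
      intro z hz
      refine Subset.antisymm (fun w hw => ?_)
        (singleton_subset_iff.mpr ⟨left_mem_seg _ _, left_mem_seg _ _⟩)
      exact seg_antisymm (seg_comm q t ▸ hw.1) ((mem_seg_iff hz).mp hw.2).1
    have i2 : seg q y ∩ seg q y' = {q} := by
      refine Subset.antisymm (fun w hw => ?_)
        (singleton_subset_iff.mpr ⟨left_mem_seg _ _, left_mem_seg _ _⟩)
      obtain ⟨l1, l2⟩ := (mem_seg_iff hq.1).mp hw.1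
      obtain ⟨-, l3⟩ := (mem_seg_iff hq.2).mp hw.2
      by_contra hne
      exact absurd (hmax ⟨l2, l3⟩) (not_le.mpr (ht_lt l1 (Ne.symm hne)))
    refine hqt (huniq q ⟨![β0, β1, β2], fun i => ?_, fun i j hij => ?_⟩)
    · fin_cases i
      · exact a0
      · exact a1
      · exact a2
    · have j1 := i1 y hq.1
      have j2 := i1 y' hq.2
      rw [← r0, ← r1] at j1
      rw [← r0, ← r2] at j2
      rw [← r1, ← r2] at i2
      fin_cases i <;> fin_cases j
      · exact absurd rfl hij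
      · exact j1
      · exact j2
      · exact (inter_comm _ _).trans j1
      · exact absurd rfl hij
      · exact i2
      · exact (inter_comm _ _).trans j2
      · exact (inter_comm _ _).trans i2
      · exact absurd rfl hij
  let : Fan X := { D with top := t, fix := hfix, comp := hcomp }
  exact same_orbit a h2 hx hy
    ⟨fun h => isMax_of_end hy (hxy.mp (end_of_isMax hx h)),
      fun h => isMax_of_end hx (hxy.mpr (end_of_isMax hy h))⟩

end Pool.Agent.P.MP_64e39e_gt
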